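import Pool.Agent.H94.CB.H62.Et.Defs
import Pool.Agent.H94.CB.M18

/-!
# Et Hat: the embedding of the projective space in the space of matrices

`pn x = pr ((LE N) x.rep)`.  Everything from Pool.Agent.H62.EF.PrA: `pr_smul`, `pr_eq_iff`, `continuousAt_pr`, `isCompact_pr`, `near_of_pr`.
* `pn_mk`: `Projectivization.exists_smul_eq_mk_rep` and `pr_smul`.
* `pn_injective`: `pr_eq_iff` and `Projectivization.mk_eq_mk_iff'`, `Projectivization.mk_rep`.
* `pn_near`: `near_of_pr` at `(LE N) x` with the preimage of `U` under `(LE N).symm`; `x' = c • y.rep`.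
* `pn_continuousAt`: `pn_mk`, `continuousAt_pr`, congruence near `a` (use `hf.self_of_nhds` for `φ a ≠ 0`).
* `pn_continuous`: `HolomorphicInto f univ` gives local analytic lifts.
* `isCompact_pn`: `pn '' projVar P = pr '' coneE P` (`mem_coneE`), and `coneE P` is a cone which is closed together with `0` (structure
  `Pool.Agent.H14.PP.IsCone`: zero_notMem, smul_mem, closed; the set `{y | ∀ Q ∈ P, eval ((LE N).symm y) Q = 0}` is closed and equal to `insert 0 (coneE P)`,
  or take closed = zeros of the ideal; if `0` is not a zero of `P` then `P = ⊤` and everything is empty), `isCompact_pr`.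
-/

set_option autoImplicit false

open Topology Filter MvPolynomial

noncomputable section

namespace Pool.Agent.H62.Et

attribute [-instance] ProperSMul.toContinuousSMul

open Pool.Agent.H17 (PN VanishesAt HolomorphicInto)
open Pool.Agent.H62.FC (Homog)
open Pool.Agent.H17EF (projVar LE coneE mem_coneE)
open Pool.Agent.H62.EF (MN pr)

variable {N : ℕ}

private theorem LE_ne {x : Fin (N + 1) → ℂ} (hx : x ≠ 0) : (LE N) x ≠ 0 := by
  intro h
  apply hx
  have := congrArg (LE N).symm h
  rwa [ContinuousLinearEquiv.symm_apply_apply, map_zero] at this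

private theorem mk_smul_eq {x : Fin (N + 1) → ℂ} (hx : x ≠ 0) {c : ℂ} (h : c • x ≠ 0) :
    Projectivization.mk ℂ (c • x) h = Projectivization.mk ℂ x hx := by
  rw [Projectivization.mk_eq_mk_iff']
  exact ⟨c, rfl⟩

theorem pn_mk {x : Fin (N + 1) → ℂ} (hx : x ≠ 0) : pn (Projectivization.mk ℂ x hx) = pr ((LE N) x) := by
  obtain ⟨a, ha, hrep⟩ := Pool.Agent.H36.BP.rep_mk hx
  unfold pn
  rw [hrep, map_smul]
  exact Pool.Agent.H62.EF.pr_smul _ ha

theorem pn_injective : Function.Injective (pn (N := N)) := by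
  intro x y h
  have hx := x.rep_nonzero
  have hy := y.rep_nonzero
  obtain ⟨c, hc, e⟩ := (Pool.Agent.H62.EF.pr_eq_iff (LE_ne hx) (LE_ne hy)).1 h
  have e2 : x.rep = c • y.rep := by
    have := congrArg (LE N).symm e
    rwa [map_smul, ContinuousLinearEquiv.symm_apply_apply, ContinuousLinearEquiv.symm_apply_apply] at this
  rw [← x.mk_rep, ← y.mk_rep, Projectivization.mk_eq_mk_iff']
  exact ⟨c, e2.symm⟩

theorem pn_near {x : Fin (N + 1) → ℂ} (hx : x ≠ 0) {U : Set (Fin (N + 1) → ℂ)} (hU : U ∈ 𝓝 x) :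
    ∃ δ : ℝ, 0 < δ ∧ ∀ y : PN N, dist (pn y) (pn (Projectivization.mk ℂ x hx)) < δ → ∃ x' ∈ U, ∃ h : x' ≠ 0, y = Projectivization.mk ℂ x' h := by
  have hU' : (LE N).symm ⁻¹' U ∈ 𝓝 ((LE N) x) := by
    refine (LE N).symm.continuous.continuousAt.preimage_mem_nhds ?_
    rwa [ContinuousLinearEquiv.symm_apply_apply]
  obtain ⟨δ, hδ, h⟩ := Pool.Agent.H62.EF.near_of_pr (LE_ne hx) hU'
  refine ⟨δ, hδ, fun y hy => ?_⟩
  rw [pn_mk hx] at hy
  obtain ⟨c, hc, hcU⟩ := h ((LE N) y.rep) (LE_ne y.rep_nonzero) hy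
  rw [Set.mem_preimage, map_smul, ContinuousLinearEquiv.symm_apply_apply] at hcU
  have h0 : c • y.rep ≠ 0 := smul_ne_zero hc y.rep_nonzero
  refine ⟨c • y.rep, hcU, h0, ?_⟩
  rw [mk_smul_eq y.rep_nonzero h0, y.mk_rep]

theorem pn_continuousAt {A : Type} [TopologicalSpace A] {φ : A → Fin (N + 1) → ℂ} {a : A} (hφ : ContinuousAt φ a) {f : A → PN N}
    (hf : ∀ᶠ b in 𝓝 a, ∃ h : φ b ≠ 0, f b = Projectivization.mk ℂ (φ b) h) : ContinuousAt (fun b => pn (f b)) a := by
  obtain ⟨h0, -⟩ := hf.self_of_nhds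
  have h1 : ContinuousAt (fun b => pr ((LE N) (φ b))) a :=
    ContinuousAt.comp (g := pr) (f := fun b => (LE N) (φ b)) (Pool.Agent.H62.EF.continuousAt_pr (LE_ne h0))
      ((LE N).continuous.continuousAt.comp hφ)
  refine h1.congr ?_
  filter_upwards [hf] with b hb
  obtain ⟨h, e⟩ := hb
  rw [e, pn_mk h]

theorem pn_continuous {f : ℂ → PN N} (hf : HolomorphicInto f Set.univ) : Continuous fun z => pn (f z) := by
  rw [continuous_iff_continuousAt]
  intro z
  obtain ⟨φ, h1, h2⟩ := hf z (Set.mem_univ z)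
  exact pn_continuousAt h1.continuousAt h2

private theorem isCone_coneE {P : Ideal (MvPolynomial (Fin (N + 1)) ℂ)} (hP : Homog P) :
    Pool.Agent.H14.PP.IsCone (coneE P) where
  zero_notMem h := by
    obtain ⟨h1, -⟩ := (mem_coneE hP).1 h
    exact h1 (map_zero _)
  smul_mem x hx c hc := by
    obtain ⟨h1, h2⟩ := (mem_coneE hP).1 hx
    refine (mem_coneE hP).2 ?_
    have h3 : (LE N).symm (c • x) = c • (LE N).symm x := map_smul _ _ _
    have h4 : (LE N).symm (c • x) ≠ 0 := by
      rw [h3]
      exact smul_ne_zero hc h1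
    refine ⟨h4, ?_⟩
    have h5 : Projectivization.mk ℂ ((LE N).symm (c • x)) h4 = Projectivization.mk ℂ ((LE N).symm x) h1 := by
      rw [Projectivization.mk_eq_mk_iff']
      exact ⟨c, h3.symm⟩
    rw [h5]
    exact h2
  closed := by
    by_cases h0 : ∀ Q ∈ P, eval (0 : Fin (N + 1) → ℂ) Q = 0
    · have e : insert 0 (coneE P) = ⋂ Q ∈ P, {y | eval ((LE N).symm y) Q = 0} := by
        ext y
        rw [Set.mem_insert_iff, Set.mem_iInter₂]
        constructor
        · rintro (rfl | hy)
          · intro Q hQ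
            rw [Set.mem_ofPred_eq, map_zero]
            exact h0 Q hQ
          · intro Q hQ
            exact hy.2 Q hQ
        · intro h
          by_cases hy : (LE N).symm y = 0
          · left
            have := congrArg (LE N) hy
            rwa [ContinuousLinearEquiv.apply_symm_apply, map_zero] at this
          · right
            exact ⟨hy, fun Q hQ => h Q hQ⟩
      rw [e]
      refine isClosed_biInter fun Q _ => ?_
      refine isClosed_eq ?_ continuous_const
      exact (MvPolynomial.continuous_eval Q).comp (LE N).symm.continuous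
    · have e : coneE P = ∅ := by
        rw [Set.eq_empty_iff_forall_notMem]
        intro y hy
        apply h0
        intro Q hQ
        have h1 := hP Q hQ 0
        rw [homogeneousComponent_zero] at h1
        have h2 := hy.2 _ h1
        rw [eval_C] at h2
        have h3 : eval (0 : Fin (N + 1) → ℂ) Q = coeff 0 Q := by
          rw [← constantCoeff_eq, MvPolynomial.eval_zero]
        rw [h3, h2]
      rw [e]
      simp

theorem isCompact_pn {P : Ideal (MvPolynomial (Fin (N + 1)) ℂ)} (hP : Homog P) : IsCompact (pn '' projVar P) := by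
  have e : pn '' projVar P = pr '' coneE P := by
    ext m
    constructor
    · rintro ⟨x, hx, rfl⟩
      refine ⟨(LE N) x.rep, (mem_coneE hP).2 ?_, rfl⟩
      have h1 : (LE N).symm ((LE N) x.rep) = x.rep := ContinuousLinearEquiv.symm_apply_apply _ _
      have h2 : (LE N).symm ((LE N) x.rep) ≠ 0 := by
        rw [h1]
        exact x.rep_nonzero
      refine ⟨h2, ?_⟩
      have h3 : Projectivization.mk ℂ ((LE N).symm ((LE N) x.rep)) h2 = x := by
        refine Eq.trans ?_ x.mk_rep
        rw [Projectivization.mk_eq_mk_iff']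
        exact ⟨1, by rw [one_smul, h1]⟩
      rw [h3]
      exact hx
    · rintro ⟨y, hy, rfl⟩
      obtain ⟨h, h'⟩ := (mem_coneE hP).1 hy
      refine ⟨_, h', ?_⟩
      rw [pn_mk h, ContinuousLinearEquiv.apply_symm_apply]
  rw [e]
  exact Pool.Agent.H62.EF.isCompact_pr (isCone_coneE hP)

end Pool.Agent.H62.Et
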